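import Mathlib

namespace Pool.Agent.Results.MP_eccde5_an.Sharp
open Complex Metric Filter Topology Real

def B : Set (ℂ × ℂ) := {z | ‖z.1‖ ^ 2 + ‖z.2‖ ^ 2 < 1}

def N (a b : ℝ) : Set (ℂ × ℂ → ℂ × ℂ) :=
  {h | AnalyticOnNhd ℂ h B ∧ h 0 = 0 ∧ (∀ v, fderiv ℂ h 0 v = (a * v.1, b * v.2)) ∧
    ∀ z ∈ B, z ≠ 0 → 0 < ((h z).1 * (starRingEnd ℂ) z.1 + (h z).2 * (starRingEnd ℂ) z.2).re}

noncomputable def q1 (k : ℕ) (h : ℂ × ℂ → ℂ × ℂ) : ℂ :=
  iteratedDeriv k (fun w => (h (0, w)).1) 0 / k.factorial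

noncomputable def q2 (k : ℕ) (h : ℂ × ℂ → ℂ × ℂ) : ℂ :=
  iteratedDeriv k (fun w => (h (w, 0)).2) 0 / k.factorial

noncomputable def t (a b : ℝ) (k : ℕ) : ℝ :=
  2 * b / ((a + (k - 2) * b) + √((a + (k - 2) * b) ^ 2 + 4 * k * a * b))

noncomputable def M (a b : ℝ) (k : ℕ) : ℝ :=
  (a * t a b k + b) * √(1 + t a b k) ^ (k - 1) / √(t a b k)

theorem key {a b : ℝ} {h : ℂ × ℂ → ℂ × ℂ} (hh : h ∈ N a b) {k : ℕ} (hk : 2 ≤ k) {y : ℝ}
    (hy : 0 < y) (c : ℂ) (hc : ‖c‖ ^ 2 * y ^ (2 * k) + y ^ 2 < 1) :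
    0 ≤ ((starRingEnd ℂ) c * y ^ (2 * k) * (a * c + q1 k h) + y ^ 2 * b).re := by
  obtain ⟨h1, h0, hD, hp⟩ := hh
  have hB : ∀ d : ℂ, ‖d‖ ≤ ‖c‖ → ∀ ζ ∈ closedBall (0 : ℂ) y, (d * ζ ^ k, ζ) ∈ B := by
    intro d hd ζ hζ
    rw [mem_closedBall_zero_iff] at hζ
    simp only [B, Set.mem_setOf_eq, norm_mul, norm_pow, mul_pow, ← pow_mul, mul_comm k 2]
    refine lt_of_le_of_lt ?_ hc
    gcongr
  have hd : ∀ d : ℂ, ‖d‖ ≤ ‖c‖ → ∀ ζ ∈ closedBall (0 : ℂ) y,
      DifferentiableAt ℂ (fun ζ => h (d * ζ ^ k, ζ)) ζ := fun d hd ζ hζ =>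
    (h1 _ (hB d hd ζ hζ)).differentiableAt.comp ζ (f := fun ζ : ℂ => (d * ζ ^ k, ζ)) (by fun_prop)
  have hd0 : ∀ ζ ∈ closedBall (0 : ℂ) y, DifferentiableAt ℂ (fun ζ => h (0, ζ)) ζ := by
    simpa using hd 0 (by simp)
  have hB0 : (0 : ℂ × ℂ) ∈ B := by simp [B]
  have hs := (h1 0 hB0).hasStrictFDerivAt
  have hk0 : k ≠ 0 := by omega
  set e : ℂ := (starRingEnd ℂ) c * y ^ (2 * k) with he
  let G : ℂ → ℂ := fun ζ => e * (((h (c * ζ ^ k, ζ)).1 - (h (0, ζ)).1) / ζ ^ k) +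
    y ^ 2 * (ζ⁻¹ * (h (c * ζ ^ k, ζ)).2)
  have hG : ∀ ζ ∈ closedBall (0 : ℂ) y \ {0}, DifferentiableAt ℂ G ζ := by
    rintro ζ ⟨hζ, hz⟩
    have := (hd c le_rfl ζ hζ).fst
    have := (hd c le_rfl ζ hζ).snd
    have := (hd0 ζ hζ).fst
    have hz : ζ ≠ 0 := hz
    have : ζ ^ k ≠ 0 := pow_ne_zero _ hz
    simp only [G]
    fun_prop (disch := assumption)
  have L1 : Tendsto (fun ζ : ℂ => ((h (c * ζ ^ k, ζ)).1 - (h (0, ζ)).1) / ζ ^ k) (𝓝[≠] 0)
      (𝓝 (a * c)) := by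
    have hT : Tendsto (fun ζ : ℂ => ((c * ζ ^ k, ζ), ((0 : ℂ), ζ))) (𝓝 0) (𝓝 (0, 0)) := by
      refine Continuous.tendsto' (by fun_prop) _ _ ?_
      simp [hk0, Prod.ext_iff]
    have h2 := hs.isLittleO.comp_tendsto hT
    have h3 : (fun ζ : ℂ => (h (c * ζ ^ k, ζ)).1 - (h (0, ζ)).1 - a * c * ζ ^ k) =o[𝓝 0]
        fun ζ : ℂ => ζ ^ k := by
      refine (Asymptotics.IsBigO.trans_isLittleO ?_ h2).trans_isBigO ?_
      · refine Asymptotics.IsBigO.of_bound' (Eventually.of_forall fun ζ => ?_)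
        refine le_trans (le_of_eq ?_) (norm_fst_le _)
        simp [hD, mul_assoc]
      · refine Asymptotics.IsBigO.of_bound ‖c‖ (Eventually.of_forall fun ζ => ?_)
        simp [Prod.norm_def, mul_nonneg]
    have h4 := (h3.tendsto_div_nhds_zero.mono_left (nhdsWithin_le_nhds (s := {0}ᶜ))).add_const
      (a * c : ℂ)
    rw [zero_add] at h4
    refine h4.congr' (eventually_nhdsWithin_of_forall fun ζ hζ => ?_)
    have : ζ ^ k ≠ 0 := pow_ne_zero _ hζ
    field_simp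
    ring
  have L2 : Tendsto (fun ζ : ℂ => ζ⁻¹ * (h (c * ζ ^ k, ζ)).2) (𝓝[≠] 0) (𝓝 b) := by
    have hP : HasDerivAt (fun ζ : ℂ => (c * ζ ^ k, ζ)) (0, 1) 0 := by
      refine HasDerivAt.prodMk ?_ (hasDerivAt_id _)
      simpa [show k - 1 ≠ 0 by omega] using (hasDerivAt_pow k (0 : ℂ)).const_mul c
    have h2 := (ContinuousLinearMap.snd ℂ ℂ ℂ).hasFDerivAt.comp_hasDerivAt (0 : ℂ)
      (hs.hasFDerivAt.comp_hasDerivAt_of_eq 0 hP (by simp [hk0, Prod.ext_iff]))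
    rw [hasDerivAt_iff_tendsto_slope_zero] at h2
    simpa [hD, hk0, h0, Prod.mk_zero_zero] using h2
  have I1 := circleIntegral_sub_center_inv_smul_of_differentiable_on_off_countable_of_tendsto hy
    (f := G) Set.countable_empty (fun ζ hζ => (hG ζ hζ).continuousAt.continuousWithinAt)
    (fun ζ hζ => hG ζ ⟨ball_subset_closedBall hζ.1.1, hζ.1.2⟩)
    ((L1.const_mul e).add (L2.const_mul (y ^ 2 : ℂ)))
  have I2 := DifferentiableOn.circleIntegral_one_div_sub_center_pow_smul hy k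
    (f := fun ζ => (h (0, ζ)).1) (c := 0) fun ζ hζ => (hd0 ζ hζ).fst.differentiableWithinAt
  have hsp : ∀ ζ ∈ sphere (0 : ℂ) |y|, ζ ∈ closedBall (0 : ℂ) y \ {0} := by
    intro ζ hζ
    rw [abs_of_pos hy] at hζ
    refine ⟨sphere_subset_closedBall hζ, ?_⟩
    rintro rfl
    simp at hζ
    exact hy.ne hζ
  have c1 : CircleIntegrable G 0 y := ContinuousOn.circleIntegrable'
    fun ζ hζ => (hG ζ (hsp ζ hζ)).continuousAt.continuousWithinAt
  have c2 : CircleIntegrable (fun ζ => e • ((h (0, ζ)).1 / ζ ^ k)) 0 y := by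
    refine ContinuousOn.circleIntegrable' fun ζ hζ => ?_
    have := (hd0 ζ (hsp ζ hζ).1).fst
    have : ζ ^ k ≠ 0 := pow_ne_zero _ (hsp ζ hζ).2
    refine (DifferentiableAt.continuousAt (𝕜 := ℂ) ?_).continuousWithinAt
    fun_prop (disch := assumption)
  have hpi : (2 * π * I : ℂ) ≠ 0 := two_pi_I_ne_zero
  have A : circleAverage (fun ζ => G ζ + e • ((h (0, ζ)).1 / ζ ^ k)) 0 y =
      e * (a * c + q1 k h) + y ^ 2 * b := by
    rw [circleAverage_fun_add c1 c2, circleAverage_fun_smul, circleAverage_eq_circleIntegral hy.ne',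
      circleAverage_eq_circleIntegral hy.ne', I1]
    have : (fun ζ : ℂ => (ζ - 0)⁻¹ • ((h (0, ζ)).1 / ζ ^ k)) =
        fun ζ => (1 / (ζ - 0) ^ (k + 1)) • (h (0, ζ)).1 := by
      funext ζ
      simp only [sub_zero, smul_eq_mul, pow_succ]
      ring
    rw [this, I2]
    simp only [smul_eq_mul, q1]
    field_simp
    ring
  rw [← A]
  refine le_of_le_of_eq ?_ (reCLM.circleAverage_comp_comm (c1.add c2))
  refine circleAverage_nonneg_of_nonneg fun ζ hζ => ?_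
  have hz : ζ ≠ 0 := (hsp ζ hζ).2
  refine le_of_le_of_eq (hp _ (hB c le_rfl ζ (hsp ζ hζ).1) fun h => hz (congrArg Prod.snd h)).le ?_
  have hn : (starRingEnd ℂ) ζ = y ^ 2 / ζ := by
    rw [abs_of_pos hy, mem_sphere_zero_iff_norm] at hζ
    rw [eq_div_iff hz, ← hζ, Complex.conj_mul']
  simp only [Function.comp, Pi.add_apply, reCLM_apply, G, map_mul, map_pow, hn, he, smul_eq_mul]
  congr 1
  rw [div_pow, ← pow_mul]
  field_simp
  ring

theorem tq {a b : ℝ} (ha : 0 < a) (hb : 0 < b) {k : ℕ} (hk : 2 ≤ k) :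
    0 < t a b k ∧ k * a * t a b k ^ 2 + (a + (k - 2) * b) * t a b k - b = 0 := by
  have hk' : (2 : ℝ) ≤ k := by exact_mod_cast hk
  have hD : 0 < a + (k - 2) * b := by have := mul_nonneg (sub_nonneg.2 hk') hb.le; linarith
  have hS := Real.sq_sqrt (show 0 ≤ (a + (k - 2) * b) ^ 2 + 4 * k * a * b by positivity)
  unfold t
  generalize a + (k - 2) * b = D at *
  have := Real.sqrt_nonneg (D ^ 2 + 4 * k * a * b)
  generalize √(D ^ 2 + 4 * k * a * b) = S at *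
  have : 0 < D + S := by linarith
  refine ⟨by positivity, ?_⟩
  field_simp
  linear_combination (-b) * hS

theorem lg {A C w : ℝ} (hA : 0 < A) (hC : 0 < C) (hw : 0 < w) :
    Real.log (A + C) + A / (A + C) * Real.log w ≤ Real.log (A * w + C) := by
  have := strictConcaveOn_log_Ioi.concaveOn.2 hw (show (0 : ℝ) < 1 by norm_num)
    (show 0 ≤ A / (A + C) by positivity) (show 0 ≤ C / (A + C) by positivity) (by field_simp)
  simp only [smul_eq_mul, Real.log_one, mul_zero, add_zero, mul_one] at this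
  rw [show A / (A + C) * w + C / (A + C) = (A * w + C) / (A + C) by field_simp,
    Real.log_div (by positivity) (by positivity)] at this
  linarith

theorem mn {a b : ℝ} (ha : 0 < a) (hb : 0 < b) {k : ℕ} (hk : 2 ≤ k) {u : ℝ} (hu : 0 < u) :
    M a b k * √u ≤ (a * u + b) * √(1 + u) ^ (k - 1) := by
  obtain ⟨h0, hq⟩ := tq ha hb hk
  unfold M
  generalize t a b k = s at *
  have h1 := lg (mul_pos ha h0) hb (div_pos hu h0)
  have h2 := lg h0 one_pos (div_pos hu h0)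
  rw [mul_assoc, mul_div_cancel₀ _ h0.ne'] at h1
  rw [mul_div_cancel₀ _ h0.ne'] at h2
  rw [Real.log_div hu.ne' h0.ne'] at h1 h2
  have hk' : ((k - 1 : ℕ) : ℝ) = k - 1 := by rw [Nat.cast_sub (by omega), Nat.cast_one]
  have hk1 : (0 : ℝ) ≤ k - 1 := by rw [← hk']; positivity
  have hc : a * s / (a * s + b) + (k - 1) / 2 * (s / (s + 1)) = 1 / 2 := by
    field_simp
    linear_combination hq
  rw [← Real.log_le_log_iff (by positivity) (by positivity), Real.log_mul (by positivity)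
    (by positivity), Real.log_div (by positivity) (by positivity), Real.log_mul (by positivity)
    (by positivity), Real.log_mul (by positivity) (by positivity), Real.log_pow, Real.log_pow,
    Real.log_sqrt h0.le, Real.log_sqrt hu.le, Real.log_sqrt (by positivity),
    Real.log_sqrt (by positivity), hk', add_comm 1 s, add_comm 1 u]
  have h3 := mul_le_mul_of_nonneg_left h2 hk1
  linear_combination h1 + h3 / 2 - (Real.log u - Real.log s) * hc

theorem Mp {a b : ℝ} (ha : 0 < a) (hb : 0 < b) {k : ℕ} (hk : 2 ≤ k) : 0 < M a b k := by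
  have := (tq ha hb hk).1
  unfold M
  positivity

theorem low {a b : ℝ} (ha : 0 < a) (hb : 0 < b) {k : ℕ} (hk : 2 ≤ k) {x y : ℝ} (hx : 0 ≤ x)
    (hy : 0 ≤ y) (h0 : 0 < x ^ 2 + y ^ 2) (h1 : x ^ 2 + y ^ 2 < 1) :
    M a b k * (x * y ^ k) < a * x ^ 2 + b * y ^ 2 := by
  have hp : 0 < a * x ^ 2 + b * y ^ 2 := by
    have := mul_pos (lt_min ha hb) h0
    nlinarith [min_le_left a b, min_le_right a b, sq_nonneg x, sq_nonneg y]
  rcases hx.eq_or_lt with rfl | hx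
  · simpa using hp
  rcases hy.eq_or_lt with rfl | hy
  · simpa [show k ≠ 0 by omega] using hp
  have h2 := mn ha hb hk (show 0 < (x / y) ^ 2 by positivity)
  rw [Real.sqrt_sq (by positivity), show 1 + (x / y) ^ 2 = (x ^ 2 + y ^ 2) / y ^ 2 by
    field_simp; ring, Real.sqrt_div' _ (by positivity), Real.sqrt_sq hy.le] at h2
  have h3 : √(x ^ 2 + y ^ 2) ^ (k - 1) < 1 :=
    pow_lt_one₀ (by positivity) (by rwa [Real.sqrt_lt' one_pos, one_pow]) (by omega)
  obtain ⟨j, rfl⟩ : ∃ j, k = j + 1 := ⟨k - 1, by omega⟩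
  rw [Nat.add_sub_cancel] at h2 h3
  have h4 := mul_le_mul_of_nonneg_right h2 (show 0 ≤ y ^ (j + 2) by positivity)
  refine lt_of_le_of_lt (le_of_eq_of_le ?_ (h4.trans_eq ?_)) (mul_lt_of_lt_one_right hp h3)
  · field_simp; ring
  · rw [div_pow, div_pow]; field_simp; ring

theorem one {a b : ℝ} (ha : 0 < a) (hb : 0 < b) {k : ℕ} (hk : 2 ≤ k) :
    IsGreatest ((fun h => ‖q1 k h‖) '' N a b) (M a b k) := by
  have hM := Mp ha hb hk
  have hk0 : k ≠ 0 := by omega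
  constructor
  · refine ⟨fun z => (a * z.1 + M a b k * z.2 ^ k, b * z.2), ⟨fun z _ =>
      ((analyticAt_const.mul analyticAt_fst).add (analyticAt_const.mul (analyticAt_snd.pow k))).prod
        (analyticAt_const.mul analyticAt_snd),
      by simp [hk0], fun v => ?_, fun z hz h0 => ?_⟩, ?_⟩
    · have h1 := (((hasFDerivAt_fst (𝕜 := ℂ) (p := (0 : ℂ × ℂ))).const_mul (a : ℂ)).add
        (((hasFDerivAt_snd (𝕜 := ℂ) (p := (0 : ℂ × ℂ))).pow k).const_mul (M a b k : ℂ))).prodMk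
        ((hasFDerivAt_snd (𝕜 := ℂ) (p := (0 : ℂ × ℂ))).const_mul (b : ℂ))
      refine (congrArg (fun L : ℂ × ℂ →L[ℂ] ℂ × ℂ => L v) h1.fderiv).trans ?_
      simp [show k - 1 ≠ 0 by omega]
    · have h1 := low ha hb hk (norm_nonneg z.1) (norm_nonneg z.2) (by
        by_contra hc
        refine h0 (Prod.ext (norm_eq_zero.1 ?_) (norm_eq_zero.1 ?_)) <;>
          nlinarith [sq_nonneg ‖z.1‖, sq_nonneg ‖z.2‖]) hz
      have h2 := (abs_le.1 (abs_re_le_norm (z.2 ^ k * (starRingEnd ℂ) z.1))).1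
      rw [norm_mul, norm_pow, RCLike.norm_conj] at h2
      have h3 : (a * z.1 + M a b k * z.2 ^ k) * (starRingEnd ℂ) z.1 + b * z.2 * (starRingEnd ℂ) z.2
          = (a * ‖z.1‖ ^ 2 + b * ‖z.2‖ ^ 2 : ℝ) + M a b k * (z.2 ^ k * (starRingEnd ℂ) z.1) := by
        push_cast
        rw [← Complex.mul_conj', ← Complex.mul_conj']
        ring
      simp only [h3, add_re, ofReal_re, re_ofReal_mul]
      nlinarith
    · simp [q1, iteratedDeriv_const_mul_field, Nat.descFactorial_self, Nat.factorial_ne_zero, hM.le]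
  · rintro _ ⟨h, hh, rfl⟩
    obtain ⟨u, hu, hq⟩ := Complex.exists_norm_eq_mul_self (q1 k h)
    have h1 : ∀ x y : ℝ, 0 < x → 0 < y → x ^ 2 + y ^ 2 < 1 →
        ‖q1 k h‖ * (x * y ^ k) ≤ a * x ^ 2 + b * y ^ 2 := by
      intro x y hx hy hxy
      have hyk : (y : ℂ) ^ k ≠ 0 := pow_ne_zero _ (by exact_mod_cast hy.ne')
      have := key hh hk hy (-(x / y ^ k) * (starRingEnd ℂ) u) (by
        rw [norm_mul, RCLike.norm_conj, hu, norm_neg, norm_div, norm_pow, Complex.norm_real,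
          Complex.norm_real, Real.norm_of_nonneg hx.le, Real.norm_of_nonneg hy.le, mul_one,
          div_pow, ← pow_mul, mul_comm k 2, div_mul_cancel₀ _ (by positivity)]
        exact hxy)
      have hu2 : u * (starRingEnd ℂ) u = 1 := by rw [Complex.mul_conj', hu]; simp
      have e : (starRingEnd ℂ) (-(x / y ^ k) * (starRingEnd ℂ) u) * y ^ (2 * k) *
          (a * (-(x / y ^ k) * (starRingEnd ℂ) u) + q1 k h) + y ^ 2 * b =
          (a * x ^ 2 + b * y ^ 2 - ‖q1 k h‖ * (x * y ^ k) : ℝ) := by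
        push_cast
        simp only [hq, map_mul, map_neg, map_div₀, map_pow, conj_ofReal, conj_conj, mul_comm 2 k,
          pow_mul]
        field_simp
        linear_combination (a * x ^ 2) * hu2
      rw [e, ofReal_re] at this
      linarith
    have h0 := (tq ha hb hk).1
    have hs : 0 < √(1 + t a b k) := by positivity
    have hs2 := Real.sq_sqrt (show 0 ≤ 1 + t a b k by positivity)
    have hτ : 0 < √(t a b k) := by positivity
    have hτ2 := Real.sq_sqrt h0.le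
    unfold M
    generalize √(1 + t a b k) = s at *
    generalize √(t a b k) = τ at *
    rw [← hτ2]
    have h2 : ‖q1 k h‖ * (1 * τ / s * (1 / s) ^ k) ≤ a * (1 * τ / s) ^ 2 + b * (1 / s) ^ 2 := by
      refine le_of_tendsto_of_tendsto (b := 𝓝[<] (1 : ℝ))
        (f := fun r => ‖q1 k h‖ * (r * τ / s * (r / s) ^ k))
        (g := fun r => a * (r * τ / s) ^ 2 + b * (r / s) ^ 2)
        (tendsto_nhdsWithin_of_tendsto_nhds (Continuous.tendsto (by fun_prop) _))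
        (tendsto_nhdsWithin_of_tendsto_nhds (Continuous.tendsto (by fun_prop) _)) ?_
      filter_upwards [Ioo_mem_nhdsLT (show (0 : ℝ) < 1 by norm_num)] with r hr
      have := hr.1
      refine h1 _ _ (by positivity) (by positivity) ?_
      rw [show (r * τ / s) ^ 2 + (r / s) ^ 2 = r ^ 2 by
        field_simp; linear_combination hτ2 - hs2]
      exact pow_lt_one₀ this.le hr.2 two_ne_zero
    obtain ⟨j, rfl⟩ : ∃ j, k = j + 1 := ⟨k - 1, by omega⟩
    rw [Nat.add_sub_cancel, le_div_iff₀ hτ]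
    have h4 := mul_le_mul_of_nonneg_right h2 (show 0 ≤ s ^ (j + 2) by positivity)
    refine le_of_eq_of_le ?_ (h4.trans_eq ?_)
    · rw [div_pow]; field_simp; ring
    · field_simp; ring

theorem sw {a b : ℝ} {h : ℂ × ℂ → ℂ × ℂ} (hh : h ∈ N a b) :
    (fun z => (h z.swap).swap) ∈ N b a := by
  obtain ⟨h1, h0, hD, hp⟩ := hh
  have hB : ∀ z ∈ B, z.swap ∈ B := fun z hz => by simpa [B, add_comm] using hz
  let L := ContinuousLinearEquiv.prodComm ℂ ℂ ℂ
  refine ⟨fun z hz => (L.analyticAt _).comp ((h1 _ (hB z hz)).comp (f := L) (L.analyticAt z)),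
    by simp [h0], fun v => ?_, fun z hz hz0 => ?_⟩
  · have h2 := L.hasFDerivAt.comp (0 : ℂ × ℂ) (HasFDerivAt.comp (0 : ℂ × ℂ) (f := L)
      (h1 0 (by simp [B])).differentiableAt.hasFDerivAt L.hasFDerivAt)
    refine (congrArg (fun L : ℂ × ℂ →L[ℂ] ℂ × ℂ => L v) h2.fderiv).trans ?_
    simp [L, hD]
  · simpa [add_comm] using hp _ (hB z hz) fun e => hz0 (by simpa using congrArg Prod.swap e)

theorem result (l : ℝ) (hl : 0 < l) (k : ℕ) (hk : 2 ≤ k) :
    IsGreatest ((fun h => ‖q1 k h‖) '' N l 1) (M l 1 k) ∧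
      IsGreatest ((fun h => ‖q2 k h‖) '' N l 1) (M 1 l k) := by
  refine ⟨one hl one_pos hk, ?_⟩
  convert one one_pos hl hk using 1
  ext r
  exact ⟨fun ⟨h, hh, e⟩ => ⟨_, sw hh, e⟩, fun ⟨h, hh, e⟩ => ⟨_, sw hh, e⟩⟩

end Pool.Agent.Results.MP_eccde5_an.Sharp
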